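import Pool.Agent.U208.SI.Stm

/-!
Package GA of project SI: half-spaces of long vectors have Gaussian measure almost one half.
-/

set_option autoImplicit false

namespace Pool.Agent.U208.SI

open Finset MeasureTheory ProbabilityTheory
open scoped ENNReal

namespace GAaux

lemma law {D : ℕ} (v : Fin D → ℝ) :
    (gam D).map (fun x => ∑ i, v i * x i) = gaussianReal 0 (sq v).toNNReal := by
  set w : EuclideanSpace ℝ (Fin D) := WithLp.toLp 2 v with hw
  have h1 : (fun x : Fin D → ℝ => ∑ i, v i * x i) =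
      (innerSL ℝ w : StrongDual ℝ (EuclideanSpace ℝ (Fin D))) ∘ (WithLp.toLp 2) := by
    ext x
    simp [hw, PiLp.inner_apply, mul_comm]
  rw [h1, ← Measure.map_map (by fun_prop) (by fun_prop), gam, map_pi_eq_stdGaussian,
    IsGaussian.map_eq_gaussianReal, integral_strongDual_stdGaussian, variance_dual_stdGaussian,
    innerSL_apply_norm, EuclideanSpace.real_norm_sq_eq]
  rfl

lemma half_mass {V : NNReal} (hV : V ≠ 0) : 1 / 2 ≤ (gaussianReal 0 V).real (Set.Ioi 0) := by
  have hs : (gaussianReal 0 V).real (Set.Iio 0) = (gaussianReal 0 V).real (Set.Ioi 0) := by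
    have h1 : (gaussianReal 0 V).map (fun x => -x) = gaussianReal 0 V := by
      rw [gaussianReal_map_neg, neg_zero]
    conv_lhs => rw [← h1]
    rw [map_measureReal_apply (by fun_prop) measurableSet_Iio]
    congr 1
    ext x
    simp
  have h2 : (gaussianReal 0 V).real (Set.Iic 0) = (gaussianReal 0 V).real (Set.Iio 0) := by
    have := nullSingletonClass_gaussianReal (μ := 0) hV
    exact measureReal_congr Iio_ae_eq_Iic.symm
  have h3 : (gaussianReal 0 V).real (Set.Iic 0) + (gaussianReal 0 V).real (Set.Ioi 0) = 1 := by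
    have h4 := measureReal_add_measureReal_compl (μ := gaussianReal 0 V)
      (measurableSet_Iic (a := (0 : ℝ)))
    rw [Set.compl_Iic] at h4
    rw [h4]
    simp
  linarith

lemma interval_mass {V : NNReal} (hV : V ≠ 0) {a : ℝ} (ha : 0 ≤ a) :
    (gaussianReal 0 V).real (Set.Ioc 0 a) ≤ a / Real.sqrt V := by
  have hV0 : (0 : ℝ) < V := by
    have := pos_iff_ne_zero.2 hV
    exact_mod_cast this
  have hsq : 0 < Real.sqrt V := Real.sqrt_pos.2 hV0
  have h1 : (gaussianReal 0 V) (Set.Ioc 0 a) ≤ ENNReal.ofReal (a / Real.sqrt V) := by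
    rw [gaussianReal_apply 0 hV]
    have h2 : ∀ x : ℝ, gaussianPDF 0 V x ≤ ENNReal.ofReal (1 / Real.sqrt V) := by
      intro x
      unfold gaussianPDF
      apply ENNReal.ofReal_le_ofReal
      unfold gaussianPDFReal
      have h3 : Real.exp (-(x - 0) ^ 2 / (2 * V)) ≤ 1 := by
        rw [Real.exp_le_one_iff]
        apply div_nonpos_of_nonpos_of_nonneg
        · nlinarith [sq_nonneg (x - 0)]
        · positivity
      have h4 : (Real.sqrt (2 * Real.pi * V))⁻¹ ≤ 1 / Real.sqrt V := by
        rw [← one_div]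
        apply one_div_le_one_div_of_le hsq
        apply Real.sqrt_le_sqrt
        nlinarith [Real.pi_gt_three]
      have h5 : 0 ≤ (Real.sqrt (2 * Real.pi * V))⁻¹ := by positivity
      calc (Real.sqrt (2 * Real.pi * V))⁻¹ * Real.exp (-(x - 0) ^ 2 / (2 * V))
          ≤ (Real.sqrt (2 * Real.pi * V))⁻¹ * 1 := mul_le_mul_of_nonneg_left h3 h5
        _ ≤ _ := by rw [mul_one]; exact h4
    calc ∫⁻ x in Set.Ioc 0 a, gaussianPDF 0 V x
        ≤ ∫⁻ _ in Set.Ioc 0 a, ENNReal.ofReal (1 / Real.sqrt V) := lintegral_mono fun x => h2 x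
      _ = ENNReal.ofReal (1 / Real.sqrt V) * ENNReal.ofReal a := by
          rw [setLIntegral_const, Real.volume_Ioc, sub_zero]
      _ = ENNReal.ofReal (a / Real.sqrt V) := by
          rw [← ENNReal.ofReal_mul (by positivity)]
          congr 1
          ring
  have h6 := ENNReal.toReal_mono ENNReal.ofReal_ne_top h1
  rw [ENNReal.toReal_ofReal (by positivity)] at h6
  exact h6

end GAaux

theorem GA_ok : S_GA := by
  intro c r hc hr
  refine ⟨(1 / 2 - c) / 2 * Real.sqrt r, (1 / 2 - c) / 2, ?_, by linarith, by linarith, ?_⟩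
  · have : 0 < Real.sqrt r := Real.sqrt_pos.2 hr
    have h2 : 0 < (1 / 2 - c) / 2 := by linarith
    positivity
  intro D hD v hv
  set τ : ℝ := (1 / 2 - c) / 2 with hτ
  have hτ0 : 0 < τ := by rw [hτ]; linarith
  have hD0 : (0 : ℝ) < D := by exact_mod_cast hD
  have hsv : 0 < sq v := lt_of_lt_of_le (by positivity) hv
  set V : NNReal := (sq v).toNNReal with hVdef
  have hVr : (V : ℝ) = sq v := Real.coe_toNNReal _ hsv.le
  have hV : V ≠ 0 := by
    intro h
    rw [h] at hVr
    simp only [NNReal.coe_zero] at hVr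
    linarith
  set a : ℝ := τ * Real.sqrt r * Real.sqrt D with ha
  have ha0 : 0 ≤ a := by positivity
  have h1 : (gam D).real (half (τ * Real.sqrt r) v) = (gaussianReal 0 V).real (Set.Ioi a) := by
    rw [hVdef, ← GAaux.law v, map_measureReal_apply (by fun_prop) measurableSet_Ioi]
    rfl
  have h2 : (gaussianReal 0 V).real (Set.Ioi 0) =
      (gaussianReal 0 V).real (Set.Ioc 0 a) + (gaussianReal 0 V).real (Set.Ioi a) := by
    rw [← Set.Ioc_union_Ioi_eq_Ioi ha0, measureReal_union _ measurableSet_Ioi]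
    rw [Set.disjoint_left]
    intro x hx hx'
    exact absurd hx.2 (not_le.2 hx')
  have h3 := GAaux.half_mass hV
  have h4 := GAaux.interval_mass hV ha0
  have h5 : a / Real.sqrt V ≤ τ := by
    rw [hVr, div_le_iff₀ (Real.sqrt_pos.2 hsv), ha, mul_assoc]
    refine mul_le_mul_of_nonneg_left ?_ hτ0.le
    rw [← Real.sqrt_mul hr.le]
    exact Real.sqrt_le_sqrt hv
  rw [h1]
  have h6 : c + τ = 1 / 2 - τ := by rw [hτ]; ring
  linarith

end Pool.Agent.U208.SI
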